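import Pool.Agent.Helper46.NU.Names

/-! # Packet MNO: subsets of null sets are null (in the Boolean valued universe) -/

set_option autoImplicit false

namespace NU.PkMNO

open Pool.Agent.Helper97.Ku

theorem covMono {L : Type} [CompleteBooleanAlgebra L] (F Y M : BSet L) :
    covV F M ⊓ subV Y M ≤ covV F Y := by
  refine le_iInf fun x => ?_
  rw [le_himp_iff]
  have h1 : subV Y M ⊓ x.mem Y ≤ x.mem M := le_himp_iff.1 (iInf_le _ x)
  have h2 : covV F M ⊓ x.mem M ≤
      ⨆ t : BSet L, ⨆ n : BSet L, (t.mem F ⊓ (lstV t n ⊓ agbV n t x)) :=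
    le_himp_iff.1 (iInf_le _ x)
  calc covV F M ⊓ subV Y M ⊓ x.mem Y = covV F M ⊓ (subV Y M ⊓ x.mem Y) := inf_assoc _ _ _
    _ ≤ covV F M ⊓ x.mem M := inf_le_inf le_rfl h1
    _ ≤ _ := h2

theorem mno : G_MNO := by
  intro L _ o Y M
  refine le_inf inf_le_left (le_iInf fun k => ?_)
  rw [le_himp_iff]
  have h1 : nullV o M ⊓ k.mem o ≤ ⨆ F : BSet L, (codeV o k F ⊓ covV F M) :=
    (inf_le_inf inf_le_right le_rfl).trans (le_himp_iff.1 (iInf_le _ k))
  have h2 : realsV o Y ⊓ (nullV o M ⊓ subV Y M) ⊓ k.mem o ≤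
      (⨆ F : BSet L, (codeV o k F ⊓ covV F M)) ⊓ subV Y M := by
    refine le_inf ((le_inf ?_ inf_le_right).trans h1) ?_
    · exact inf_le_left.trans (inf_le_right.trans inf_le_left)
    · exact inf_le_left.trans (inf_le_right.trans inf_le_right)
  refine h2.trans ?_
  rw [iSup_inf_eq]
  refine iSup_mono fun F => ?_
  rw [inf_assoc]
  exact inf_le_inf le_rfl (covMono F Y M)

end NU.PkMNO
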